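import Pool.Agent.Lib.MP_e9314e_an.FreeArc

/-!
# MP_e9314e_an: compact spaces with a free arc

If a compact Hausdorff space `Q` contains an open subset homeomorphic to the real line and carries a
complex Chebyshev system `x 0, …, x (n-1)` with `2 ≤ n`, then `Q` is homeomorphic to a subset of the
plane.
-/

set_option autoImplicit false

open Topology

namespace Pool.Agent.Results.MP_e9314e_an.FreeArc

theorem result {Q : Type*} [TopologicalSpace Q] [CompactSpace Q] [T2Space Q] (n : ℕ) (hn : 2 ≤ n)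
    (x : Fin n → C(Q, ℂ)) (hx : MPe9314e.IsChebyshevSystem x) (φ : ℝ → Q) (hφ : IsOpenEmbedding φ) :
    ∃ ψ : Q → ℂ, IsEmbedding ψ := by
  obtain ⟨d, rfl⟩ : ∃ d, n = d + 1 := ⟨n - 1, by omega⟩
  obtain ⟨ψ, hψ, hψi⟩ := MPe9314e.free_arc (by omega) hx hφ
  exact ⟨ψ, (hψ.isClosedEmbedding hψi).isEmbedding⟩

end Pool.Agent.Results.MP_e9314e_an.FreeArc
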