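import Pool.Agent.Lib.MP_e9314e_an.GModel

/-!
# MP_e9314e_an: no `K₅` or `K₃,₃` made of continua

A compact Hausdorff space with a complex Chebyshev system of `n ≥ 2` functions contains no model of
`K₅` or `K₃,₃` by closed connected sets.
-/

set_option autoImplicit false

open Topology

namespace Pool.Agent.Results.MP_e9314e_an.GraphModels

/-- nonvanishing determinants give the Chebyshev property -/
private theorem cheb {Q : Type*} [TopologicalSpace Q] {n : ℕ} (x : Fin n → C(Q, ℂ))
    (hx : ∀ q : Fin n → Q, Function.Injective q → (Matrix.of fun j k => x k (q j)).det ≠ 0) :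
    MPe9314e.IsChebyshevSystem x := by
  intro α hα S hS
  by_contra hcard
  have h1 : n ≤ S.card := by omega
  obtain ⟨T, hTS, hT⟩ := Finset.exists_subset_card_eq h1
  let e : Fin n ≃ T := (Fintype.equivFinOfCardEq (by simpa using hT)).symm
  have hdet := hx (fun j => (e j : Q)) (fun i j h => e.injective (Subtype.ext h))
  apply hα
  have hmul : (Matrix.of fun j k => x k ((e j : T) : Q)).mulVec α = 0 := by
    funext j
    simp only [Matrix.mulVec, dotProduct, Matrix.of_apply, Pi.zero_apply]
    have h2 := hS (e j) (hTS (e j).2)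
    rw [← h2]
    exact Finset.sum_congr rfl fun k _ => mul_comm _ _
  exact Matrix.eq_zero_of_mulVec_eq_zero hdet hmul

/-- A compact Hausdorff space with a complex Chebyshev system of `n ≥ 2` functions contains no
model by closed connected sets of a graph isomorphic to `K₅` or `K₃,₃`. -/
theorem result (n : ℕ) (hn : 2 ≤ n) (Q : Type*) [TopologicalSpace Q] [CompactSpace Q] [T2Space Q]
    (x : Fin n → C(Q, ℂ))
    (hx : ∀ q : Fin n → Q, Function.Injective q → (Matrix.of fun j k => x k (q j)).det ≠ 0)
    (ι : Type*) (G : SimpleGraph ι) (hG : Nonempty (G ≃g (⊤ : SimpleGraph (Fin 5))) ∨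
      Nonempty (G ≃g completeBipartiteGraph (Fin 3) (Fin 3)))
    (V : ι → Set Q) (E : ι → ι → Set Q) : ¬ MPe9314e.IsModel G V E := by
  have hc := cheb x hx
  obtain ⟨d, rfl⟩ : ∃ d, n = d + 1 := ⟨n - 1, by omega⟩
  exact MPe9314e.no_model (by omega) hc hG

end Pool.Agent.Results.MP_e9314e_an.GraphModels
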