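import Pool.Agent.Lib.MP_e9314e_an.PB.Link

/-!
# MP_e9314e_an: no suspension in a space with a complex Chebyshev system

Let `C` be a nonempty totally disconnected compact metrizable space and `T : C → C` a
homeomorphism which has no periodic points, or which has an invariant probability measure that
gives the set of periodic points measure zero. The suspension of `(C, T)` is the quotient of
`C × ℝ` by `(c, s + 1) ∼ (T c, s)`. A space with a complex Chebyshev system of `n ≥ 2` functions
contains no homeomorphic copy of such a suspension.
-/

set_option autoImplicit false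

open Topology MeasureTheory

namespace Pool.Agent.Results.MP_e9314e_an.PoincareBendixson

/-- Let `x 0, …, x (n-1)` be a complex Chebyshev system on `Q` with `n ≥ 2`, let `C` be a nonempty
totally disconnected compact metrizable space and `T` a homeomorphism of `C` without periodic
points, or with an invariant probability measure for which almost no point is periodic. Then no
continuous map `φ : C × ℝ → Q` identifies exactly the pairs of points that are identified in the
suspension of `(C, T)`; so (for `Q` Hausdorff) `Q` does not contain a homeomorphic copy of the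
suspension. -/
theorem result (n : ℕ) (hn : 2 ≤ n) (Q : Type*) [TopologicalSpace Q]
    (x : Fin n → C(Q, ℂ))
    (hx : ∀ q : Fin n → Q, Function.Injective q → (Matrix.of fun j k => x k (q j)).det ≠ 0)
    (C : Type*) [TopologicalSpace C] [CompactSpace C] [TopologicalSpace.MetrizableSpace C]
    [TotallyDisconnectedSpace C] [Nonempty C] [MeasurableSpace C] [BorelSpace C] (T : C ≃ₜ C)
    (hT : (∀ c : C, ∀ k : ℕ, 0 < k → T^[k] c ≠ c) ∨
      ∃ μ : Measure C, IsProbabilityMeasure μ ∧ MeasurePreserving T μ μ ∧
        μ {c | ∃ k : ℕ, 0 < k ∧ T^[k] c = c} = 0)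
    (φ : C × ℝ → Q) (hφ : Continuous φ) :
    ¬ ∀ p q : C × ℝ, φ p = φ q ↔ ∃ k : ℤ, q.1 = (T ^ k) p.1 ∧ p.2 = q.2 + k := by
  intro hφ'
  obtain ⟨q, hq, hdet⟩ := Pool.Agent.Lib.MP_e9314e_an.PB.main hT hφ hφ' hn x
  exact hx q hq hdet

end Pool.Agent.Results.MP_e9314e_an.PoincareBendixson
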