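import Pool.Agent.Lib.MP_e9314e_an.Reduction

/-!
# MP_e9314e_an: reduction to continua

Let `Q` be a compact Hausdorff space with a complex Chebyshev system of `n ≥ 2` functions that does
not embed in the plane. Then `Q` is the disjoint union of at most `n - 3` isolated points and of a
nonplanar connected space `K` such that every closed subset of `Q` which does not contain `K` embeds
in the plane.
-/

set_option autoImplicit false

open Topology

namespace Pool.Agent.Results.MP_e9314e_an.Reduction

/-- nonvanishing determinants give the Chebyshev property -/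
private theorem cheb {Q : Type*} [TopologicalSpace Q] {n : ℕ} (hn : 0 < n) (x : Fin n → C(Q, ℂ))
    (hx : ∀ q : Fin n → Q, Function.Injective q → (Matrix.of fun j k => x k (q j)).det ≠ 0) :
    MPe9314e.IsChebyshevSystem x := by
  intro α hα S hS
  by_contra hcard
  have h1 : n ≤ S.card := by omega
  obtain ⟨T, hTS, hT⟩ := Finset.exists_subset_card_eq h1
  let e : Fin n ≃ T := (Fintype.equivFinOfCardEq (by simpa using hT)).symm
  have hdet := hx (fun j => (e j : Q)) (fun i j h => e.injective (Subtype.ext h))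
  apply hα
  have hmul : (Matrix.of fun j k => x k ((e j : T) : Q)).mulVec α = 0 := by
    funext j
    simp only [Matrix.mulVec, dotProduct, Matrix.of_apply, Pi.zero_apply]
    have h2 := hS (e j) (hTS (e j).2)
    rw [← h2]
    exact Finset.sum_congr rfl fun k _ => mul_comm _ _
  exact Matrix.eq_zero_of_mulVec_eq_zero hdet hmul

/-- A compact Hausdorff space with a complex Chebyshev system of `n ≥ 2` functions that does not
embed in the plane consists of at most `n - 3` isolated points and of a connected nonplanar space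
`K = Q \ F`; all closed subsets that do not contain `K` embed in the plane. -/
theorem result (n : ℕ) (hn : 2 ≤ n) (Q : Type*) [TopologicalSpace Q] [CompactSpace Q] [T2Space Q]
    (x : Fin n → C(Q, ℂ))
    (hx : ∀ q : Fin n → Q, Function.Injective q → (Matrix.of fun j k => x k (q j)).det ≠ 0)
    (hQ : ¬ ∃ φ : Q → ℂ, IsEmbedding φ) :
    ∃ F : Finset Q, F.card + 3 ≤ n ∧ (∀ q ∈ F, IsOpen ({q} : Set Q)) ∧
      IsConnected ((F : Set Q)ᶜ) ∧
      (¬ ∃ φ : ((F : Set Q)ᶜ : Set Q) → ℂ, IsEmbedding φ) ∧
      ∀ Z : Set Q, IsClosed Z → ¬ ((F : Set Q)ᶜ ⊆ Z) → ∃ ψ : Z → ℂ, IsEmbedding ψ := by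
  classical
  have hc := cheb (by omega) x hx
  have hQ' : ¬ ∃ φ : Q → ℂ, Continuous φ ∧ Function.Injective φ := by
    rintro ⟨φ, h1, h2⟩
    exact hQ ⟨φ, (h1.isClosedEmbedding h2).isEmbedding⟩
  obtain ⟨m, rfl⟩ : ∃ m, n = m + 2 := ⟨n - 2, by omega⟩
  obtain ⟨F, -, hF1, hF2, hF3⟩ := MPe9314e.reduction (d := m + 1) (by omega) hc hQ'
  have hFo : IsOpen (F : Set Q) := by
    rw [isOpen_iff_forall_mem_open]
    intro q hq
    exact ⟨{q}, Set.singleton_subset_iff.2 hq, hF1 q hq, rfl⟩
  have hclopen : IsClopen (F : Set Q) := ⟨F.finite_toSet.isClosed, hFo⟩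
  refine ⟨F, ?_, hF1, hF2, ?_, fun Z hZ hKZ => ?_⟩
  · have h1 := Pool.Agent.Lib.MP_e9314e_an.fa_isolated x hx hQ'
    have h2 : (F : Set Q).encard ≤ {q : Q | IsOpen {q}}.encard :=
      Set.encard_le_encard fun q hq => hF1 q hq
    have h3 := lt_of_le_of_lt h2 h1
    rw [Set.encard_coe_eq_coe_finsetCard] at h3
    have h4 : F.card < m := by exact_mod_cast h3
    omega
  · rintro ⟨φ, hφ⟩
    apply hQ'
    -- the finitely many isolated points embed as well
    obtain ⟨g, hgc, hgi⟩ : ∃ g : Q → ℂ, ContinuousOn g (F : Set Q) ∧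
        Set.InjOn g (F : Set Q) := by
      obtain ⟨N, ⟨e⟩⟩ := Finite.exists_equiv_fin F
      refine ⟨fun q => if h : q ∈ F then ((e ⟨q, h⟩ : ℕ) : ℂ) else 0, ?_, ?_⟩
      · intro q hq
        have h3 : ({q} : Set Q) ∈ 𝓝 q := (hF1 q hq).mem_nhds rfl
        apply ContinuousAt.continuousWithinAt
        apply continuousAt_const.congr
        filter_upwards [h3] with z hz
        rw [Set.mem_singleton_iff.1 hz]
      · intro q hq q' hq' h
        rw [Finset.mem_coe] at hq hq'
        simp only at h
        rw [dif_pos hq, dif_pos hq', Nat.cast_inj] at h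
        have h3 := e.injective (Fin.ext h)
        exact congrArg Subtype.val h3
    have h4 : ∃ ψ : Q → ℂ, ContinuousOn ψ (F : Set Q)ᶜ ∧ Set.InjOn ψ (F : Set Q)ᶜ := by
      refine ⟨fun q => if h : q ∈ (F : Set Q)ᶜ then φ ⟨q, h⟩ else 0, ?_, ?_⟩
      · rw [continuousOn_iff_continuous_domRestrict]
        apply hφ.continuous.congr
        intro q
        rw [Set.domRestrict_apply, dif_pos q.2]
      · intro q hq q' hq' h
        simp only at h
        rw [dif_pos hq, dif_pos hq'] at h
        exact congrArg Subtype.val (hφ.injective h)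
    obtain ⟨ψ, hψc, hψi⟩ := h4
    exact Pool.Agent.Lib.MP_e9314e_an.fa_union hclopen hgc hgi hψc hψi
  · obtain ⟨ψ, hψ, hψi⟩ := hF3 Z hZ hKZ
    have : CompactSpace Z := isCompact_iff_compactSpace.1 hZ.isCompact
    refine ⟨fun z : Z => ψ z, Continuous.isClosedEmbedding ?_ ?_ |>.isEmbedding⟩
    · exact continuousOn_iff_continuous_domRestrict.1 hψ
    · intro z w h
      exact Subtype.ext (hψi z.2 w.2 h)

end Pool.Agent.Results.MP_e9314e_an.Reduction
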